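import Mathlib

namespace Pool.Agent.H.MP_1cee73_an

open Real

/-- The extremal constant. -/
noncomputable def K : ℝ := 7 * √21 / 27

lemma s21 : (√21 : ℝ) ^ 2 = 21 := Real.sq_sqrt (by norm_num)

lemma s21_ge : (4 : ℝ) ≤ √21 := Real.le_sqrt_of_sq_le (by norm_num)

lemma K_ge : 1 ≤ K := by
  have := s21_ge
  unfold K
  linarith

lemma cubic (y : ℝ) (hy : -1 ≤ y) : (7 * y - 4 * y ^ 3) / 3 ≤ K := by
  have h1 := s21
  have h2 := s21_ge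
  have h3 : 0 ≤ (y - √21 / 6) ^ 2 * (y + √21 / 3) := mul_nonneg (sq_nonneg _) (by linarith)
  have h4 : (y - √21 / 6) ^ 2 * (y + √21 / 3) = y ^ 3 - 7 / 4 * y + 7 / 36 * √21 := by
    linear_combination (-(y / 12) + √21 / 108) * h1
  unfold K
  linarith

lemma mass (e x0 x1 x2 : ℝ) (he : |e| ≤ 1) (hs : x0 + x1 + x2 = 0)
    (b0 : |x0| ≤ 1) (b1 : |x1| ≤ 1) (b2 : |x2| ≤ 1)
    (c0 : 4 * x0 ^ 3 - 3 * x0 = e) (c1 : 4 * x1 ^ 3 - 3 * x1 = e) (c2 : 4 * x2 ^ 3 - 3 * x2 = e) :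
    |(e + 2 * x0) / 3| + |(e + 2 * x1) / 3| + |(e + 2 * x2) / 3| ≤ K := by
  have k := K_ge
  rw [abs_le] at he b0 b1 b2
  have p0 := cubic x0 b0.1
  have p1 := cubic x1 b1.1
  have p2 := cubic x2 b2.1
  have q0 := cubic (-x0) (by linarith [b0.2])
  have q1 := cubic (-x1) (by linarith [b1.2])
  have q2 := cubic (-x2) (by linarith [b2.2])
  have r0 : (-x0) ^ 3 = -x0 ^ 3 := by ring
  have r1 : (-x1) ^ 3 = -x1 ^ 3 := by ring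
  have r2 : (-x2) ^ 3 = -x2 ^ 3 := by ring
  rw [r0] at q0
  rw [r1] at q1
  rw [r2] at q2
  rcases abs_cases ((e + 2 * x0) / 3) with h0 | h0 <;>
  rcases abs_cases ((e + 2 * x1) / 3) with h1 | h1 <;>
  rcases abs_cases ((e + 2 * x2) / 3) with h2 | h2 <;>
  linarith [h0.1, h1.1, h2.1, he.1, he.2]

lemma cuberoot (e1 e2 : ℝ) (he : e1 ^ 2 + e2 ^ 2 = 1) :
    ∃ c s : ℝ, c ^ 2 + s ^ 2 = 1 ∧ e1 = 4 * c ^ 3 - 3 * c ∧ e2 = 3 * s - 4 * s ^ 3 := by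
  have hn : ‖(⟨e1, e2⟩ : ℂ)‖ = 1 := by
    have : ‖(⟨e1, e2⟩ : ℂ)‖ ^ 2 = 1 := by
      rw [Complex.sq_norm, Complex.normSq_mk]; linarith
    nlinarith [norm_nonneg (⟨e1, e2⟩ : ℂ)]
  have hne : (⟨e1, e2⟩ : ℂ) ≠ 0 := by
    intro h; rw [h] at hn; simp at hn
  have h1 := Complex.cos_arg hne
  have h2 := Complex.sin_arg (⟨e1, e2⟩ : ℂ)
  rw [hn] at h1 h2
  set θ := Complex.arg (⟨e1, e2⟩ : ℂ)
  refine ⟨cos (θ / 3), sin (θ / 3), by rw [add_comm]; exact sin_sq_add_cos_sq _, ?_, ?_⟩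
  · rw [← Real.cos_three_mul, show 3 * (θ / 3) = θ by ring, h1]; simp
  · rw [← Real.sin_three_mul, show 3 * (θ / 3) = θ by ring, h2]; simp

lemma core1 (α β δ b1 b2 V : ℝ)
    (h : ∀ x y : ℝ, x ^ 2 + y ^ 2 = 1 → |α * x ^ 2 + 2 * β * (x * y) + δ * y ^ 2 + b1 * x + b2 * y| ≤ V)
    (e1 e2 : ℝ) (he : e1 ^ 2 + e2 ^ 2 = 1) : α * e1 + β * e2 + b1 ≤ K * V := by
  obtain ⟨c, s, hcs, h1, h2⟩ := cuberoot e1 e2 he
  obtain ⟨r, hr⟩ : ∃ r : ℝ, r ^ 2 = 3 := ⟨√3, Real.sq_sqrt (by norm_num)⟩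
  set x1 := (-c + r * s) / 2 with hx1
  set y1 := (-s - r * c) / 2 with hy1
  set x2 := (-c - r * s) / 2 with hx2
  set y2 := (-s + r * c) / 2 with hy2
  have u1 : x1 ^ 2 + y1 ^ 2 = 1 := by rw [hx1, hy1]; grind
  have u2 : x2 ^ 2 + y2 ^ 2 = 1 := by rw [hx2, hy2]; grind
  have a0 := h c s hcs
  have a1 := h x1 y1 u1
  have a2 := h x2 y2 u2
  have hV : 0 ≤ V := (abs_nonneg _).trans a0
  have bd : ∀ x y : ℝ, x ^ 2 + y ^ 2 = 1 → |x| ≤ 1 := fun x y hxy => by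
    rw [abs_le]; constructor <;> nlinarith [sq_nonneg y]
  have hm := mass e1 c x1 x2 (bd e1 e2 he) (by rw [hx1, hx2]; ring) (bd c s hcs) (bd x1 y1 u1)
    (bd x2 y2 u2) h1.symm (by rw [hx1, h1]; grind) (by rw [hx2, h1]; grind)
  have key : α * e1 + β * e2 + b1 =
      (e1 + 2 * c) / 3 * (α * c ^ 2 + 2 * β * (c * s) + δ * s ^ 2 + b1 * c + b2 * s)
      + (e1 + 2 * x1) / 3 * (α * x1 ^ 2 + 2 * β * (x1 * y1) + δ * y1 ^ 2 + b1 * x1 + b2 * y1)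
      + (e1 + 2 * x2) / 3 * (α * x2 ^ 2 + 2 * β * (x2 * y2) + δ * y2 ^ 2 + b1 * x2 + b2 * y2) := by
    rw [hx1, hx2, hy1, hy2, h1, h2]; grind
  have t : ∀ m q : ℝ, |q| ≤ V → m * q ≤ |m| * V := fun m q hq =>
    (le_abs_self _).trans (by rw [abs_mul]; exact mul_le_mul_of_nonneg_left hq (abs_nonneg _))
  have t0 := t ((e1 + 2 * c) / 3) _ a0
  have t1 := t ((e1 + 2 * x1) / 3) _ a1
  have t2 := t ((e1 + 2 * x2) / 3) _ a2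
  have := mul_le_mul_of_nonneg_right hm hV
  rw [key]
  linarith

lemma core2 (α β δ b1 b2 V : ℝ)
    (h : ∀ x y : ℝ, x ^ 2 + y ^ 2 = 1 → |α * x ^ 2 + 2 * β * (x * y) + δ * y ^ 2 + b1 * x + b2 * y| ≤ V)
    (p q : ℝ) (hpq : p ^ 2 + q ^ 2 = 1) (e1 e2 : ℝ) (he : e1 ^ 2 + e2 ^ 2 = 1) :
    α * (p * e1) + β * (p * e2 + q * e1) + δ * (q * e2) + b1 * p + b2 * q ≤ K * V := by
  have := core1 (α * p ^ 2 + 2 * β * (p * q) + δ * q ^ 2) ((δ - α) * (p * q) + β * (p ^ 2 - q ^ 2))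
    (α * q ^ 2 - 2 * β * (p * q) + δ * p ^ 2) (b1 * p + b2 * q) (b2 * p - b1 * q) V
    (fun x y hxy => by
      have := h (x * p - y * q) (x * q + y * p) (by
        have : (x * p - y * q) ^ 2 + (x * q + y * p) ^ 2 = (x ^ 2 + y ^ 2) * (p ^ 2 + q ^ 2) := by ring
        rw [this, hxy, hpq]; norm_num)
      convert this using 2
      ring)
    (p * e1 + q * e2) (p * e2 - q * e1) (by
      have : (p * e1 + q * e2) ^ 2 + (p * e2 - q * e1) ^ 2 = (e1 ^ 2 + e2 ^ 2) * (p ^ 2 + q ^ 2) := by ring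
      rw [this, he, hpq]; norm_num)
  have e : (α * p ^ 2 + 2 * β * (p * q) + δ * q ^ 2) * (p * e1 + q * e2)
      + ((δ - α) * (p * q) + β * (p ^ 2 - q ^ 2)) * (p * e2 - q * e1)
      = (p ^ 2 + q ^ 2) * (α * (p * e1) + β * (p * e2 + q * e1) + δ * (q * e2)) := by ring
  rw [e, hpq] at this
  linarith

/-- Polar form of a vector of the closed disc. -/
lemma polar (e1 e2 : ℝ) : ∃ ρ u1 u2 : ℝ, 0 ≤ ρ ∧ ρ ^ 2 = e1 ^ 2 + e2 ^ 2 ∧ u1 ^ 2 + u2 ^ 2 = 1 ∧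
    e1 = ρ * u1 ∧ e2 = ρ * u2 := by
  by_cases h0 : e1 ^ 2 + e2 ^ 2 = 0
  · have h1 : e1 = 0 := by nlinarith [sq_nonneg e1, sq_nonneg e2]
    have h2 : e2 = 0 := by nlinarith [sq_nonneg e1, sq_nonneg e2]
    exact ⟨0, 1, 0, le_rfl, by rw [h0]; norm_num, by norm_num, by simp [h1], by simp [h2]⟩
  · have hp : 0 < e1 ^ 2 + e2 ^ 2 := lt_of_le_of_ne (by positivity) (Ne.symm h0)
    have hs : 0 < √(e1 ^ 2 + e2 ^ 2) := Real.sqrt_pos.2 hp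
    have hq : √(e1 ^ 2 + e2 ^ 2) ^ 2 = e1 ^ 2 + e2 ^ 2 := Real.sq_sqrt hp.le
    refine ⟨√(e1 ^ 2 + e2 ^ 2), e1 / √(e1 ^ 2 + e2 ^ 2), e2 / √(e1 ^ 2 + e2 ^ 2), hs.le, hq, ?_,
      by field_simp, by field_simp⟩
    rw [div_pow, div_pow, hq]; field_simp

lemma core (α β δ b1 b2 V : ℝ)
    (h : ∀ x y : ℝ, x ^ 2 + y ^ 2 = 1 → |α * x ^ 2 + 2 * β * (x * y) + δ * y ^ 2 + b1 * x + b2 * y| ≤ V)
    (p q : ℝ) (hpq : p ^ 2 + q ^ 2 = 1) (e1 e2 : ℝ) (he : e1 ^ 2 + e2 ^ 2 ≤ 1) :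
    α * (p * e1) + β * (p * e2 + q * e1) + δ * (q * e2) + b1 * p + b2 * q ≤ K * V := by
  obtain ⟨ρ, u1, u2, h0, h1, hu, rfl, rfl⟩ := polar e1 e2
  have hρ : ρ ≤ 1 := by nlinarith
  have a := core2 α β δ b1 b2 V h p q hpq u1 u2 hu
  have b := core2 α β δ b1 b2 V h p q hpq (-u1) (-u2) (by linarith)
  have a' := mul_le_mul_of_nonneg_left a (show 0 ≤ (1 + ρ) / 2 by linarith)
  have b' := mul_le_mul_of_nonneg_left b (show 0 ≤ (1 - ρ) / 2 by linarith)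
  nlinarith

end Pool.Agent.H.MP_1cee73_an
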