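import Pool.Agent.H.MP_1cee73_an.Sup

namespace Pool.Agent.H.MP_1cee73_an

open Real Complex ContinuousLinearMap

/-- The sum norm space. -/
abbrev X1 := WithLp 1 (ℂ × ℂ)

/-- First inclusion. -/
noncomputable def i1 : ℂ →L[ℝ] X1 :=
  ((WithLp.prodContinuousLinearEquiv 1 ℝ ℂ ℂ).symm : ℂ × ℂ →L[ℝ] X1).comp (inl ℝ ℂ ℂ)
/-- Second inclusion. -/
noncomputable def i2 : ℂ →L[ℝ] X1 :=
  ((WithLp.prodContinuousLinearEquiv 1 ℝ ℂ ℂ).symm : ℂ × ℂ →L[ℝ] X1).comp (inr ℝ ℂ ℂ)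
/-- First projection. -/
noncomputable def p1 : X1 →L[ℝ] ℂ :=
  (fst ℝ ℂ ℂ).comp (WithLp.prodContinuousLinearEquiv 1 ℝ ℂ ℂ : X1 →L[ℝ] ℂ × ℂ)
/-- Second projection. -/
noncomputable def p2 : X1 →L[ℝ] ℂ :=
  (snd ℝ ℂ ℂ).comp (WithLp.prodContinuousLinearEquiv 1 ℝ ℂ ℂ : X1 →L[ℝ] ℂ × ℂ)

@[simp] lemma p1i1 (z : ℂ) : p1 (i1 z) = z := rfl
@[simp] lemma p2i1 (z : ℂ) : p2 (i1 z) = 0 := rfl
@[simp] lemma p1i2 (z : ℂ) : p1 (i2 z) = 0 := rfl
@[simp] lemma p2i2 (z : ℂ) : p2 (i2 z) = z := rfl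

lemma nrm (x : X1) : ‖x‖ = ‖p1 x‖ + ‖p2 x‖ := WithLp.prod_norm_eq_of_L1 x

lemma dec (x : X1) : x = i1 (p1 x) + i2 (p2 x) := by
  apply (WithLp.prodContinuousLinearEquiv 1 ℝ ℂ ℂ).injective
  rw [map_add]
  apply Prod.ext
  · change p1 x = p1 x + 0
    simp
  · change p2 x = 0 + p2 x
    simp

lemma n1 (z : ℂ) : ‖i1 z‖ = ‖z‖ := by rw [nrm]; simp
lemma n2 (z : ℂ) : ‖i2 z‖ = ‖z‖ := by rw [nrm]; simp

lemma fbd (c s u v : ℝ) (h : c ^ 2 + s ^ 2 ≤ 1) (hw : u ^ 2 + v ^ 2 ≤ 1) (z : X1) :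
    |((pr c s).comp p1 + (pr u v).comp p2) z| ≤ ‖z‖ := by
  rw [nrm, add_apply]
  exact (abs_add_le _ _).trans (add_le_add (by simpa using cs c s h (p1 z))
    (by simpa using cs u v hw (p2 z)))

lemma so1 (c s u v : ℝ) (h : c ^ 2 + s ^ 2 = 1) (hw : u ^ 2 + v ^ 2 ≤ 1) :
    St (i1 ⟨c, s⟩) ((pr c s).comp p1 + (pr u v).comp p2) :=
  mkSt _ _ (by rw [n1, norm_one_of c s h]) (fbd c s u v h.le hw) (by simp; linarith)

lemma so2 (c s u v : ℝ) (h : c ^ 2 + s ^ 2 = 1) (hw : u ^ 2 + v ^ 2 ≤ 1) :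
    St (i2 ⟨c, s⟩) ((pr u v).comp p1 + (pr c s).comp p2) :=
  mkSt _ _ (by rw [n2, norm_one_of c s h]) (fbd u v c s hw h.le) (by simp; linarith)

lemma norming {x : X1} {f : StrongDual ℝ X1} (h : St x f) :
    f (i1 (p1 x)) = ‖p1 x‖ ∧ f (i2 (p2 x)) = ‖p2 x‖ := by
  have a := h.le (i1 (p1 x))
  have b := h.le (i2 (p2 x))
  have c := h.2.2
  have d := h.1
  rw [n1] at a
  rw [n2] at b
  rw [dec x, map_add] at c
  rw [nrm] at d
  constructor <;> linarith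

lemma al1 {x : X1} {f : StrongDual ℝ X1} (h : St x f) :
    (f (i1 1)) ^ 2 + (f (i1 I)) ^ 2 ≤ 1 ∧ (p1 x).re = ‖p1 x‖ * f (i1 1) ∧
      (p1 x).im = ‖p1 x‖ * f (i1 I) ∧ (‖p1 x‖ = 0 ∨ (f (i1 1)) ^ 2 + (f (i1 I)) ^ 2 = 1) :=
  alignL (f.comp i1) (p1 x) (fun z => (h.le (i1 z)).trans (n1 z).le) (norming h).1

lemma al2 {x : X1} {f : StrongDual ℝ X1} (h : St x f) :
    (f (i2 1)) ^ 2 + (f (i2 I)) ^ 2 ≤ 1 ∧ (p2 x).re = ‖p2 x‖ * f (i2 1) ∧
      (p2 x).im = ‖p2 x‖ * f (i2 I) ∧ (‖p2 x‖ = 0 ∨ (f (i2 1)) ^ 2 + (f (i2 I)) ^ 2 = 1) :=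
  alignL (f.comp i2) (p2 x) (fun z => (h.le (i2 z)).trans (n2 z).le) (norming h).2

lemma l1 (f : StrongDual ℝ X1) (z : ℂ) : f (i1 z) = z.re * f (i1 1) + z.im * f (i1 I) :=
  lin (f.comp i1) z

lemma l2 (f : StrongDual ℝ X1) (z : ℂ) : f (i2 z) = z.re * f (i2 1) + z.im * f (i2 I) :=
  lin (f.comp i2) z

theorem upL : Up X1 := by
  intro T V hV h
  set P1 := p1.comp (T.comp i1) with hP1
  set R1 := p2.comp (T.comp i1) with hR1
  set P2 := p2.comp (T.comp i2) with hP2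
  set R2 := p1.comp (T.comp i2) with hR2
  refine ⟨i1.comp ((rot (sk P1)).comp p1) + i2.comp ((rot (sk P2)).comp p2), ?_, ?_⟩
  · intro x f hf
    obtain ⟨-, a1, a2, -⟩ := al1 hf
    obtain ⟨-, b1, b2, -⟩ := al2 hf
    rw [add_apply, map_add, comp_apply, comp_apply, comp_apply, comp_apply, l1, l2]
    simp only [rot_apply, mul_re, mul_im, ofReal_re, ofReal_im, I_re, I_im]
    generalize ‖p1 x‖ = n at a1 a2
    generalize ‖p2 x‖ = m at b1 b2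
    rw [a1, a2, b1, b2]
    ring
  · apply opNorm_le_bound _ (mul_nonneg (by linarith [K_ge]) hV)
    intro x
    have c1 := col P1 R1 V (fun c s hcs u v huv => by
      simpa [hP1, hR1] using h _ _ (so1 c s u v hcs huv.le)) (p1 x)
    have c2 := col P2 R2 V (fun c s hcs u v huv => by
      have := h _ _ (so2 c s u v hcs huv.le)
      rw [add_apply, add_comm] at this
      simpa [hP2, hR2] using this) (p2 x)
    set U := T + (i1.comp ((rot (sk P1)).comp p1) + i2.comp ((rot (sk P2)).comp p2)) with hU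
    have d1 : ‖U (i1 (p1 x))‖ = ‖P1 (p1 x) + (sk P1 * I) * p1 x‖ + ‖R1 (p1 x)‖ := by
      rw [nrm]; simp [hU, hP1, hR1]
    have d2 : ‖U (i2 (p2 x))‖ = ‖P2 (p2 x) + (sk P2 * I) * p2 x‖ + ‖R2 (p2 x)‖ := by
      rw [nrm, add_comm]; simp [hU, hP2, hR2]
    have e : U x = U (i1 (p1 x)) + U (i2 (p2 x)) := by rw [← map_add, ← dec]
    rw [e, nrm x]
    refine (norm_add_le _ _).trans ?_
    rw [d1, d2]
    linarith

/-- The off-diagonal block of the transposed operator. -/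
noncomputable def C0 : ℂ →L[ℝ] ℂ := (8 / 9 : ℝ) • ofRealCLM.comp imCLM

lemma C0_re (z : ℂ) : (C0 z).re = 8 / 9 * z.im := by simp [C0]
lemma C0_im (z : ℂ) : (C0 z).im = 0 := by simp [C0]

theorem exL : Ex X1 := by
  refine ⟨i1.comp (A0.comp p1) + i2.comp (C0.comp p1), ?_, ?_⟩
  · intro x f hf
    obtain ⟨-, a1, a2, a3⟩ := al1 hf
    obtain ⟨b0, -⟩ := al2 hf
    have hn : ‖p1 x‖ ≤ 1 := by
      have := hf.1
      rw [nrm] at this
      linarith [norm_nonneg (p2 x)]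
    have h0 := norm_nonneg (p1 x)
    rw [add_apply, map_add, comp_apply, comp_apply, comp_apply, comp_apply, l1, l2, A0_re, A0_im,
      C0_re, C0_im]
    generalize ‖p1 x‖ = n at a1 a2 a3 hn h0
    rw [a1, a2]
    rcases a3 with a3 | a3
    · simp [a3]
    · have := form_bd _ _ (f (i2 1)) a3 (by
        rw [abs_le]; constructor <;> nlinarith [sq_nonneg (f (i2 I))])
      have e := mul_le_mul hn this (abs_nonneg _) zero_le_one
      rw [← abs_of_nonneg h0, ← abs_mul, one_mul] at e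
      refine le_of_eq_of_le ?_ e
      congr 1
      ring
  · intro S hS
    obtain ⟨a, ha⟩ := skew (p1.comp (S.comp i1)) fun c s hcs => by
      simpa using hS _ _ (so1 c s 0 0 hcs (by norm_num))
    simp only [comp_apply] at ha
    set T := i1.comp (A0.comp p1) + i2.comp (C0.comp p1) + S with hT
    obtain ⟨r, hr⟩ : ∃ r : ℝ, r ^ 2 = 5 / 12 := ⟨√(5 / 12), Real.sq_sqrt (by norm_num)⟩
    have h21 := s21
    have g21 := s21_ge
    set d := √21 / 6 with hd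
    have hd2 : d ^ 2 = 7 / 12 := by rw [hd, div_pow, h21]; norm_num
    have key : ∀ t : ℝ, t ^ 2 = 5 / 12 → 0 ≤ ‖T‖ - 8 / 9 * d ∧
        (7 / 9 * t - a * d) ^ 2 + (-(1 / 9) * d + a * t) ^ 2 ≤ (‖T‖ - 8 / 9 * d) ^ 2 := fun t ht => by
      have hu : t ^ 2 + d ^ 2 = 1 := by linarith
      have b1 := hS _ _ (so1 t d 1 0 hu (by norm_num))
      simp only [add_apply, comp_apply, pr_apply, (ha _).1, (ha _).2] at b1
      have h1 := T.le_opNorm (i1 ⟨t, d⟩)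
      rw [n1, norm_one_of t d hu, mul_one, nrm] at h1
      have e1 : p1 (T (i1 ⟨t, d⟩)) = A0 ⟨t, d⟩ + p1 (S (i1 ⟨t, d⟩)) := by simp [hT]
      have e2 : p2 (T (i1 ⟨t, d⟩)) = C0 ⟨t, d⟩ + p2 (S (i1 ⟨t, d⟩)) := by simp [hT]
      have h2 := re_le_norm (p2 (T (i1 ⟨t, d⟩)))
      rw [e2, add_re, C0_re, ← e2] at h2
      simp only at h2
      have h3 : ‖p1 (T (i1 ⟨t, d⟩))‖ ≤ ‖T‖ - 8 / 9 * d := by linarith
      refine ⟨(norm_nonneg _).trans h3, ?_⟩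
      have h4 := pow_le_pow_left₀ (norm_nonneg _) h3 2
      rw [nsq, e1] at h4
      simp only [add_re, add_im, A0_re, A0_im, (ha _).1, (ha _).2] at h4
      refine le_of_eq_of_le ?_ h4
      ring
    obtain ⟨k0, k1⟩ := key r hr
    obtain ⟨-, k2⟩ := key (-r) (by linarith)
    have k3 : (2 / 3 * d) ^ 2 ≤ (‖T‖ - 8 / 9 * d) ^ 2 := by
      nlinarith [sq_nonneg (a * d), sq_nonneg (a * r)]
    have k4 := (abs_le_of_sq_le_sq' k3 k0).2
    unfold K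
    linarith

end Pool.Agent.H.MP_1cee73_an
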