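import Pool.Agent.H.MP_1cee73_an.Core

namespace Pool.Agent.H.MP_1cee73_an

open Real Complex

lemma lin {E : Type*} [NormedAddCommGroup E] [NormedSpace ℝ E] (P : ℂ →L[ℝ] E) (z : ℂ) :
    P z = z.re • P 1 + z.im • P I := by
  rw [← map_smul, ← map_smul, ← map_add]
  congr 1
  apply Complex.ext <;> simp

lemma nsq (z : ℂ) : ‖z‖ ^ 2 = z.re ^ 2 + z.im ^ 2 := by
  rw [Complex.sq_norm, Complex.normSq_apply]; ring

lemma norm_one_of (c s : ℝ) (h : c ^ 2 + s ^ 2 = 1) : ‖(⟨c, s⟩ : ℂ)‖ = 1 := by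
  have := nsq ⟨c, s⟩
  simp only at this
  nlinarith [norm_nonneg (⟨c, s⟩ : ℂ)]

lemma sq_le_of (z : ℂ) (h : ‖z‖ ≤ 1) : z.re ^ 2 + z.im ^ 2 ≤ 1 := by
  rw [← nsq]; nlinarith [norm_nonneg z]

lemma cs (c s : ℝ) (h : c ^ 2 + s ^ 2 ≤ 1) (z : ℂ) : |c * z.re + s * z.im| ≤ ‖z‖ := by
  apply abs_le_of_sq_le_sq _ (norm_nonneg z)
  rw [nsq]
  nlinarith [sq_nonneg (c * z.im - s * z.re), mul_le_mul_of_nonneg_right h
    (show 0 ≤ z.re ^ 2 + z.im ^ 2 by positivity)]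

lemma polarC (z : ℂ) : ∃ u1 u2 : ℝ, u1 ^ 2 + u2 ^ 2 = 1 ∧ z.re = ‖z‖ * u1 ∧ z.im = ‖z‖ * u2 := by
  obtain ⟨ρ, u1, u2, h0, h1, hu, h2, h3⟩ := polar z.re z.im
  have : ρ = ‖z‖ := by
    rw [← nsq] at h1
    exact (pow_left_inj₀ h0 (norm_nonneg z) two_ne_zero).1 h1
  exact ⟨u1, u2, hu, this ▸ h2, this ▸ h3⟩

lemma norm_eq_pair (z : ℂ) : ∃ u1 u2 : ℝ, u1 ^ 2 + u2 ^ 2 = 1 ∧ ‖z‖ = u1 * z.re + u2 * z.im := by
  obtain ⟨u1, u2, hu, h1, h2⟩ := polarC z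
  refine ⟨u1, u2, hu, ?_⟩
  have : u1 * (‖z‖ * u1) + u2 * (‖z‖ * u2) = ‖z‖ * (u1 ^ 2 + u2 ^ 2) := by ring
  rw [← h1, ← h2, hu] at this
  linarith

/-- The skew correction that makes P symmetric. -/
noncomputable def sk (P : ℂ →L[ℝ] ℂ) : ℝ := ((P I).re - (P 1).im) / 2

lemma row (P : ℂ →L[ℝ] ℂ) (b : ℂ) (V : ℝ)
    (h : ∀ c s : ℝ, c ^ 2 + s ^ 2 = 1 → |c * (P ⟨c, s⟩ + b).re + s * (P ⟨c, s⟩ + b).im| ≤ V)
    (y : ℂ) (hy : ‖y‖ ≤ 1) : ‖P y + b + (sk P * I) * y‖ ≤ K * V := by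
  obtain ⟨u1, u2, hu, e⟩ := norm_eq_pair (P y + b + (sk P * I) * y)
  have := core (P 1).re (((P I).re + (P 1).im) / 2) (P I).im b.re b.im V (fun c s hcs => by
    have := h c s hcs
    rw [lin P] at this
    convert this using 2
    simp
    ring) u1 u2 hu y.re y.im (sq_le_of y hy)
  rw [e, lin P y]
  convert this using 1
  simp [sk]
  ring

lemma col (P R : ℂ →L[ℝ] ℂ) (V : ℝ)
    (h : ∀ c s : ℝ, c ^ 2 + s ^ 2 = 1 → ∀ w1 w2 : ℝ, w1 ^ 2 + w2 ^ 2 = 1 →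
      |c * (P ⟨c, s⟩).re + s * (P ⟨c, s⟩).im + (w1 * (R ⟨c, s⟩).re + w2 * (R ⟨c, s⟩).im)| ≤ V)
    (y : ℂ) : ‖P y + (sk P * I) * y‖ + ‖R y‖ ≤ K * V * ‖y‖ := by
  obtain ⟨e1, e2, he, e⟩ := norm_eq_pair (P y + (sk P * I) * y)
  obtain ⟨w1, w2, hw, e'⟩ := norm_eq_pair (R y)
  obtain ⟨u1, u2, hu, h1, h2⟩ := polarC y
  have := core (P 1).re (((P I).re + (P 1).im) / 2) (P I).im
    (w1 * (R 1).re + w2 * (R 1).im) (w1 * (R I).re + w2 * (R I).im) V (fun c s hcs => by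
    have := h c s hcs w1 w2 hw
    rw [lin P, lin R] at this
    convert this using 2
    simp
    ring) u1 u2 hu e1 e2 he.le
  have := mul_le_mul_of_nonneg_right this (norm_nonneg y)
  rw [e, e', lin P y, lin R y]
  refine le_of_eq_of_le ?_ this
  simp only [sk, add_re, add_im, mul_re, mul_im, smul_re, smul_im, smul_eq_mul, I_re, I_im,
    ofReal_re, ofReal_im]
  generalize ‖y‖ = n at h1 h2
  rw [h1, h2]
  ring

/-- A functional on the disc that peaks at y is a multiple of the pairing with y. -/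
lemma alignS (φ : ℂ →L[ℝ] ℝ) (y : ℂ) (hy : ‖y‖ ≤ 1) (h : ∀ z, ‖z‖ ≤ 1 → φ z ≤ φ y) :
    ∃ ρ : ℝ, 0 ≤ ρ ∧ (∀ z, φ z = ρ * (y.re * z.re + y.im * z.im)) ∧
      (ρ = 0 ∨ y.re ^ 2 + y.im ^ 2 = 1) := by
  obtain ⟨ρ, u1, u2, h0, -, hu, h2, h3⟩ := polar (φ 1) (φ I)
  have hz := h ⟨u1, u2⟩ (norm_one_of _ _ hu).le
  rw [lin φ, lin φ y, h2, h3] at hz
  simp only [smul_eq_mul] at hz
  have hy2 := sq_le_of y hy
  rcases h0.eq_or_lt with h0 | hp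
  · refine ⟨0, le_rfl, fun z => ?_, Or.inl rfl⟩
    rw [lin φ, h2, h3, ← h0]; simp
  · have h4 : 1 ≤ y.re * u1 + y.im * u2 := by
      apply le_of_mul_le_mul_left _ hp
      have : u1 * (ρ * u1) + u2 * (ρ * u2) = ρ * (u1 ^ 2 + u2 ^ 2) := by ring
      rw [hu] at this
      linarith
    have h5 : y.re = u1 := by nlinarith [sq_nonneg (y.re - u1), sq_nonneg (y.im - u2)]
    have h6 : y.im = u2 := by nlinarith [sq_nonneg (y.re - u1), sq_nonneg (y.im - u2)]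
    refine ⟨ρ, h0, fun z => ?_, Or.inr (by rw [h5, h6, hu])⟩
    rw [lin φ, h2, h3, h5, h6]; simp only [smul_eq_mul]; ring

/-- A contractive functional norming y. -/
lemma alignL (φ : ℂ →L[ℝ] ℝ) (y : ℂ) (h : ∀ z, φ z ≤ ‖z‖) (hy : φ y = ‖y‖) :
    (φ 1) ^ 2 + (φ I) ^ 2 ≤ 1 ∧ y.re = ‖y‖ * φ 1 ∧ y.im = ‖y‖ * φ I ∧
      (‖y‖ = 0 ∨ (φ 1) ^ 2 + (φ I) ^ 2 = 1) := by
  obtain ⟨ρ, u1, u2, h0, h1, hu, h2, h3⟩ := polar (φ 1) (φ I)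
  have hz := h ⟨u1, u2⟩
  rw [norm_one_of _ _ hu, lin φ, h2, h3] at hz
  simp only [smul_eq_mul] at hz
  have hρ : ρ ≤ 1 := by
    have : u1 * (ρ * u1) + u2 * (ρ * u2) = ρ * (u1 ^ 2 + u2 ^ 2) := by ring
    rw [hu] at this
    linarith
  have hg : (φ 1) ^ 2 + (φ I) ^ 2 ≤ 1 := by rw [← h1]; nlinarith
  rw [lin φ] at hy
  simp only [smul_eq_mul] at hy
  have hn := nsq y
  have hq := mul_le_mul_of_nonneg_left hg (sq_nonneg ‖y‖)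
  have hsum : (y.re - ‖y‖ * φ 1) ^ 2 + (y.im - ‖y‖ * φ I) ^ 2 ≤ 0 := by
    have : (y.re - ‖y‖ * φ 1) ^ 2 + (y.im - ‖y‖ * φ I) ^ 2 = (y.re ^ 2 + y.im ^ 2)
      - 2 * ‖y‖ * (y.re * φ 1 + y.im * φ I) + ‖y‖ ^ 2 * ((φ 1) ^ 2 + (φ I) ^ 2) := by ring
    rw [this, hy, ← hn]; nlinarith
  have h5 : y.re - ‖y‖ * φ 1 = 0 := by
    nlinarith [sq_nonneg (y.re - ‖y‖ * φ 1), sq_nonneg (y.im - ‖y‖ * φ I)]
  have h6 : y.im - ‖y‖ * φ I = 0 := by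
    nlinarith [sq_nonneg (y.re - ‖y‖ * φ 1), sq_nonneg (y.im - ‖y‖ * φ I)]
  refine ⟨hg, by linarith, by linarith, ?_⟩
  by_cases hy0 : ‖y‖ = 0
  · exact Or.inl hy0
  · right
    apply mul_left_cancel₀ hy0
    have e1 : y.re = ‖y‖ * φ 1 := by linarith
    have e2 : y.im = ‖y‖ * φ I := by linarith
    have : y.re * φ 1 + y.im * φ I = ‖y‖ * φ 1 * φ 1 + ‖y‖ * φ I * φ I := by rw [← e1, ← e2]
    linarith

/-- A real-linear map of ℂ whose quadratic form vanishes is a multiple of the rotation. -/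
lemma skew (P : ℂ →L[ℝ] ℂ)
    (h : ∀ c s : ℝ, c ^ 2 + s ^ 2 = 1 → c * (P ⟨c, s⟩).re + s * (P ⟨c, s⟩).im = 0) :
    ∃ a : ℝ, ∀ z, (P z).re = -a * z.im ∧ (P z).im = a * z.re := by
  have h1 := h 1 0 (by norm_num)
  have h2 := h 0 1 (by norm_num)
  have h3 := h (3 / 5) (4 / 5) (by norm_num)
  rw [lin P] at h1 h2 h3
  simp only [add_re, add_im, smul_re, smul_im, smul_eq_mul] at h1 h2 h3
  refine ⟨(P 1).im, fun z => ?_⟩
  rw [lin P z]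
  simp only [add_re, add_im, smul_re, smul_im, smul_eq_mul]
  have e1 : (P 1).re = 0 := by linarith
  have e2 : (P I).im = 0 := by linarith
  have e3 : (P I).re = -(P 1).im := by linarith
  rw [e1, e2, e3]
  constructor <;> ring

section
variable {X : Type*} [NormedAddCommGroup X] [NormedSpace ℝ X]

/-- States. -/
def St (x : X) (f : StrongDual ℝ X) : Prop := ‖x‖ = 1 ∧ ‖f‖ = 1 ∧ f x = 1

lemma mkSt (x : X) (f : StrongDual ℝ X) (hx : ‖x‖ = 1) (hf : ∀ z, |f z| ≤ ‖z‖) (h : f x = 1) :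
    St x f := by
  refine ⟨hx, le_antisymm (f.opNorm_le_bound zero_le_one fun z => by simpa using hf z) ?_, h⟩
  have := f.le_opNorm x
  rw [h, hx] at this
  simpa using this

lemma St.le {x : X} {f : StrongDual ℝ X} (h : St x f) (z : X) : f z ≤ ‖z‖ := by
  have := f.le_opNorm z
  rw [h.2.1, one_mul] at this
  exact (le_abs_self _).trans this

/-- Upper estimate. -/
def Up (X : Type*) [NormedAddCommGroup X] [NormedSpace ℝ X] : Prop :=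
  ∀ (T : X →L[ℝ] X) (V : ℝ), 0 ≤ V → (∀ x f, St x f → |f (T x)| ≤ V) →
    ∃ S : X →L[ℝ] X, (∀ x f, St x f → f (S x) = 0) ∧ ‖T + S‖ ≤ K * V

/-- Extremal operator. -/
def Ex (X : Type*) [NormedAddCommGroup X] [NormedSpace ℝ X] : Prop :=
  ∃ T : X →L[ℝ] X, (∀ x f, St x f → |f (T x)| ≤ 1) ∧
    ∀ S : X →L[ℝ] X, (∀ x f, St x f → f (S x) = 0) → K ≤ ‖T + S‖
end

/-- The pairing with the vector (c, s). -/
noncomputable def pr (c s : ℝ) : ℂ →L[ℝ] ℝ := c • reCLM + s • imCLM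

@[simp] lemma pr_apply (c s : ℝ) (z : ℂ) : pr c s z = c * z.re + s * z.im := by simp [pr]

/-- Multiplication by a i. -/
noncomputable def rot (a : ℝ) : ℂ →L[ℝ] ℂ := ContinuousLinearMap.mul ℝ ℂ (a * I)

@[simp] lemma rot_apply (a : ℝ) (z : ℂ) : rot a z = (a * I) * z := by simp [rot]

end Pool.Agent.H.MP_1cee73_an
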