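import Pool.Agent.H.MP_1cee73_an.Row

namespace Pool.Agent.H.MP_1cee73_an

open Real Complex ContinuousLinearMap

lemma split {E : Type*} [NormedAddCommGroup E] [NormedSpace ℝ E] (L : (ℂ × ℂ) →L[ℝ] E) (y w : ℂ) :
    L (y, w) = L (y, 0) + L (0, w) := by
  rw [← map_add]; simp

lemma st1 (c s : ℝ) (h : c ^ 2 + s ^ 2 = 1) (w : ℂ) (hw : ‖w‖ ≤ 1) :
    St ((⟨c, s⟩, w) : ℂ × ℂ) ((pr c s).comp (fst ℝ ℂ ℂ)) := by
  apply mkSt
  · rw [Prod.norm_mk, norm_one_of c s h, max_eq_left hw]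
  · intro z
    exact (cs c s h.le z.1).trans' (by simp) |>.trans (norm_fst_le z)
  · simp; linarith

lemma st2 (c s : ℝ) (h : c ^ 2 + s ^ 2 = 1) (w : ℂ) (hw : ‖w‖ ≤ 1) :
    St ((w, ⟨c, s⟩) : ℂ × ℂ) ((pr c s).comp (snd ℝ ℂ ℂ)) := by
  apply mkSt
  · rw [Prod.norm_mk, norm_one_of c s h, max_eq_right hw]
  · intro z
    exact (cs c s h.le z.2).trans' (by simp) |>.trans (norm_snd_le z)
  · simp; linarith

lemma desc1 {y w : ℂ} {f : StrongDual ℝ (ℂ × ℂ)} (h : St (y, w) f) :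
    ∃ ρ : ℝ, 0 ≤ ρ ∧ ρ ≤ 1 ∧ (∀ z, f (z, 0) = ρ * (y.re * z.re + y.im * z.im)) ∧
      (ρ = 0 ∨ y.re ^ 2 + y.im ^ 2 = 1) := by
  have hy : ‖y‖ ≤ 1 := (norm_fst_le (y, w)).trans h.1.le
  have hw : ‖w‖ ≤ 1 := (norm_snd_le (y, w)).trans h.1.le
  obtain ⟨ρ, h0, h1, h2⟩ := alignS (f.comp (inl ℝ ℂ ℂ)) y hy fun z hz => by
    have a := h.le (z, w)
    have b := h.2.2
    have c : ‖(z, w)‖ ≤ 1 := by rw [Prod.norm_mk]; exact max_le hz hw
    rw [split] at a b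
    simp only [comp_apply, inl_apply]
    linarith
  refine ⟨ρ, h0, ?_, fun z => by simpa using h1 z, h2⟩
  rcases h2 with h2 | h2
  · linarith
  · have a := h.le (y, 0)
    have b := h1 y
    have c : ‖(y, (0 : ℂ))‖ ≤ 1 := by rw [Prod.norm_mk]; exact max_le hy (by simp)
    simp only [comp_apply, inl_apply] at b
    have : y.re * y.re + y.im * y.im = 1 := by linarith
    rw [this] at b
    linarith

lemma desc2 {y w : ℂ} {f : StrongDual ℝ (ℂ × ℂ)} (h : St (y, w) f) :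
    ∃ ρ : ℝ, ∀ z, f (0, z) = ρ * (w.re * z.re + w.im * z.im) := by
  have hy : ‖y‖ ≤ 1 := (norm_fst_le (y, w)).trans h.1.le
  have hw : ‖w‖ ≤ 1 := (norm_snd_le (y, w)).trans h.1.le
  obtain ⟨ρ, -, h1, -⟩ := alignS (f.comp (inr ℝ ℂ ℂ)) w hw fun z hz => by
    have a := h.le (y, z)
    have b := h.2.2
    have c : ‖(y, z)‖ ≤ 1 := by rw [Prod.norm_mk]; exact max_le hy hz
    rw [split] at a b
    simp only [comp_apply, inr_apply]
    linarith
  exact ⟨ρ, fun z => by simpa using h1 z⟩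

theorem upS : Up (ℂ × ℂ) := by
  intro T V hV h
  set P1 := (fst ℝ ℂ ℂ).comp (T.comp (inl ℝ ℂ ℂ)) with hP1
  set P2 := (snd ℝ ℂ ℂ).comp (T.comp (inr ℝ ℂ ℂ)) with hP2
  refine ⟨(rot (sk P1)).prodMap (rot (sk P2)), ?_, ?_⟩
  · rintro ⟨y, w⟩ f hf
    obtain ⟨ρ, -, -, h1, -⟩ := desc1 hf
    obtain ⟨ρ', h2⟩ := desc2 hf
    have : ((rot (sk P1)).prodMap (rot (sk P2))) (y, w) = (rot (sk P1) y, rot (sk P2) w) := rfl
    rw [this, split, h1, h2]
    simp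
    ring
  · apply opNorm_le_of_unit_norm (mul_nonneg (by linarith [K_ge]) hV)
    rintro ⟨y, w⟩ hx
    have hy : ‖y‖ ≤ 1 := (norm_fst_le (y, w)).trans hx.le
    have hw : ‖w‖ ≤ 1 := (norm_snd_le (y, w)).trans hx.le
    rw [Prod.norm_def]
    apply max_le
    · have := row P1 (T (0, w)).1 V (fun c s hcs => by
        have := h _ _ (st1 c s hcs w hw)
        rw [split T] at this
        simpa [hP1] using this) y hy
      refine le_of_eq_of_le ?_ this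
      congr 1
      rw [add_apply, split T]
      simp [hP1]
    · have := row P2 (T (y, 0)).2 V (fun c s hcs => by
        have := h _ _ (st2 c s hcs y hy)
        rw [split T, add_comm] at this
        simpa [hP2] using this) w hw
      refine le_of_eq_of_le ?_ this
      congr 1
      rw [add_apply, split T, add_comm (T (y, 0))]
      simp [hP2]

/-- The symmetric block diag (7/9, -1/9). -/
noncomputable def A0 : ℂ →L[ℝ] ℂ :=
  (7 / 9 : ℝ) • ofRealCLM.comp reCLM - (1 / 9 : ℝ) • (rot 1).comp (ofRealCLM.comp imCLM)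

lemma A0_re (z : ℂ) : (A0 z).re = 7 / 9 * z.re := by simp [A0]
lemma A0_im (z : ℂ) : (A0 z).im = -(1 / 9) * z.im := by simp [A0]

/-- The off-diagonal block. -/
noncomputable def B0 : ℂ →L[ℝ] ℂ := (8 / 9 : ℝ) • (rot 1).comp (ofRealCLM.comp reCLM)

lemma B0_re (z : ℂ) : (B0 z).re = 0 := by simp [B0]
lemma B0_im (z : ℂ) : (B0 z).im = 8 / 9 * z.re := by simp [B0]

lemma form_bd (y1 y2 t : ℝ) (hy : y1 ^ 2 + y2 ^ 2 = 1) (ht : |t| ≤ 1) :
    |7 / 9 * y1 ^ 2 - 1 / 9 * y2 ^ 2 + 8 / 9 * t * y2| ≤ 1 := by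
  rw [abs_le] at ht ⊢
  have h1 : y2 ^ 2 ≤ 1 := by nlinarith [sq_nonneg y1]
  have h2 : t ^ 2 ≤ 1 := by nlinarith
  have e : y1 ^ 2 = 1 - y2 ^ 2 := by linarith
  rw [e]
  constructor
  · nlinarith [sq_nonneg (t + y2)]
  · nlinarith [sq_nonneg (t - 2 * y2)]

lemma K_sq : K ^ 2 = 343 / 243 := by
  unfold K
  rw [div_pow, mul_pow, s21]; norm_num

theorem exS : Ex (ℂ × ℂ) := by
  refine ⟨(inl ℝ ℂ ℂ).comp (A0.coprod B0), ?_, ?_⟩
  · rintro ⟨y, w⟩ f hf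
    obtain ⟨ρ, h0, h1, h2, h3⟩ := desc1 hf
    have hw : ‖w‖ ≤ 1 := (norm_snd_le (y, w)).trans hf.1.le
    have : ((inl ℝ ℂ ℂ).comp (A0.coprod B0)) (y, w) = (A0 y + B0 w, 0) := rfl
    rw [this, h2]
    rcases h3 with h3 | h3
    · simp [h3]
    · have := form_bd y.re y.im w.re h3 ((abs_re_le_norm w).trans hw)
      rw [abs_mul, abs_of_nonneg h0]
      refine (mul_le_mul h1 (le_of_eq_of_le ?_ this) (abs_nonneg _) zero_le_one).trans (by norm_num)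
      congr 1
      rw [add_re, add_im, A0_re, A0_im, B0_re, B0_im]; ring
  · intro S hS
    obtain ⟨a, ha⟩ := skew ((fst ℝ ℂ ℂ).comp (S.comp (inl ℝ ℂ ℂ))) fun c s hcs => by
      simpa using hS _ _ (st1 c s hcs 0 (by simp))
    simp only [comp_apply, inl_apply, coe_fst'] at ha
    have b1 := hS _ _ (st1 1 0 (by norm_num) 1 (by simp))
    have b2 := hS _ _ (st1 0 1 (by norm_num) 1 (by simp))
    rw [split S] at b1 b2
    simp only [comp_apply, coe_fst', pr_apply, Prod.fst_add, add_re, add_im, (ha _).1, (ha _).2] at b1 b2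
    obtain ⟨r, hr⟩ : ∃ r : ℝ, r ^ 2 = 35 / 36 := ⟨√(35 / 36), Real.sq_sqrt (by norm_num)⟩
    set T := (inl ℝ ℂ ℂ).comp (A0.coprod B0) + S with hT
    have key : ∀ t : ℝ, t ^ 2 = 35 / 36 →
        (7 / 9 * t + a / 6) ^ 2 + (49 / 54 + a * t) ^ 2 ≤ ‖T‖ ^ 2 := fun t ht => by
      have hx : ‖((⟨t, -(1 / 6)⟩, 1) : ℂ × ℂ)‖ = 1 := (st1 t (-(1 / 6)) (by linarith) 1 (by simp)).1
      have h1 := T.le_opNorm (⟨t, -(1 / 6)⟩, 1)
      rw [hx, mul_one] at h1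
      have h2 := (_root_.norm_fst_le (T (⟨t, -(1 / 6)⟩, 1))).trans h1
      have h3 := pow_le_pow_left₀ (norm_nonneg _) h2 2
      rw [nsq] at h3
      have e : (T (⟨t, -(1 / 6)⟩, 1)).1 = A0 ⟨t, -(1 / 6)⟩ + B0 1
          + ((S (⟨t, -(1 / 6)⟩, 0)).1 + (S (0, 1)).1) := by
        rw [hT, add_apply, split S]; rfl
      rw [e] at h3
      simp only [add_re, add_im, A0_re, A0_im, B0_re, B0_im, (ha _).1, (ha _).2, one_re] at h3
      have e1 : (S (0, 1)).1.re = 0 := by linarith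
      have e2 : (S (0, 1)).1.im = 0 := by linarith
      rw [e1, e2] at h3
      refine le_of_eq_of_le ?_ h3
      ring
    have k1 := key r hr
    have k2 := key (-r) (by linarith)
    apply abs_le_of_sq_le_sq' _ (norm_nonneg T) |>.2
    rw [K_sq]
    nlinarith [sq_nonneg a, sq_nonneg (a * r)]

end Pool.Agent.H.MP_1cee73_an
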